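import Pool.Agent.Helper14K9.DC.Ez
import Pool.Agent.Y757.EM.Fin

/-!
# MP_4467b5_nt: the density hypothesis for the zeros in dense clusters

For a zero `ρ = β + iγ` of zeta and `0 < δ < 1/2` let `near δ ρ` be the set of the zeros in the disc
`|s - (1 + iγ)| ≤ 1 - β + δ`. The starting result `IsolatedZeros` is the density hypothesis for the zeros
with `|near δ ρ| ≤ η log T`. Here we prove it, unconditionally, for the zeros at the other end:
`|near δ ρ| ≥ c log T` with `c = (2σ-1) / (4 log ((σ-δ)/(1-σ+δ)))`, for all `σ > 1/2 + δ` (part (4)).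
By part (5) no disc holds more than `(1/6 + e) log γ / log ((β-δ)/(1-β+δ))` zeros, so that for `σ < 5/6`
part (4) deals with all zeros for which the number of zeros in the disc lies between `(6σ-3)/2` times
the largest possible number and this number (`3/4` of it for `σ = 3/4`).

More generally at most `C + T^(1 - 4 c log ((σ-δ)/(1-σ+δ)) + e)` zeros with real part at least `σ` and
height at most `T` have `c log T` zeros in their discs (part (3)). This follows from bounds for the Green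
energy `Energy A H t`, the sum over the zeros `ρ'` right of the critical line with `|Im ρ' - t| ≤ H` of
`log |(s - 1 + conj ρ') / (s - ρ')|²`, `s = 1/2 + A + it`, `A > 1/2`: its exponential moments of order
`k = 2` are `O(T^(1+e))` (part (1)), and at most `C + T^(1 - kw + e)` zeros up to height `T` lie at
heights of energy at least `w log T` (part (2)). The same holds for every `k` for which the moment of
order `2k` of zeta on the critical line is `O(T^(1+ε))` for all `ε`.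

Proof. Let `B` be the Blaschke product of the half-plane `Re s > 1/2` formed with the zeros. At the
point `s = 1/2 + A + it`, `|ζ/B|^(2k)` is at most its Poisson integral, a mean value of `|ζ|^(2k)` near
`1/2 + it`; as `Re s > 1`, `|ζ(s)|` is bounded from below, and `|B(s)|^(-2k) = exp (k Energy)`. For `A`
close to `1/2` each zero of a disc contributes at least `2 log ((σ-δ)/(1-σ+δ)) - o(1)` to the energy.
The Jensen inequality with mean squares in a half-plane is `Pool.Agent.Y693.R4.blaschke` (helper 693).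
-/

set_option autoImplicit false

namespace Pool.Agent.Results.MP_4467b5_nt.DenseClusters

open MeasureTheory Set Pool.Agent.Helper14K9.DC
open Pool.Agent.Y757.HW (Moment Growth)

theorem hyp_of {k : ℕ} (h : k = 2 ∨ Moment k) : Pool.Agent.Y757.EM.HypK k := by
  rcases h with rfl | h
  · exact Pool.Agent.Y757.EM.hyp2
  · exact Pool.Agent.Y757.EM.hyp_of_moment h

/-- from finite sets of zeros of height at least 2 to the count of a set of zeros -/
theorem count_le {σ T X : ℝ} {A : Set ℂ} (hA : A ⊆ zeros σ T)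
    (h : ∀ S : Finset ℂ, (∀ ρ ∈ S, ρ ∈ A ∧ 2 ≤ ρ.im) →
      ∑ ρ ∈ S, (analyticOrderNatAt riemannZeta ρ : ℝ) ≤ X) :
    (count A : ℝ) ≤ count (zeros σ 2) + X := by
  classical
  have hf : A.Finite := (zeros_finite σ T).subset hA
  rw [count_eq hf, count_eq (zeros_finite σ 2), ← Finset.sum_filter_add_sum_filter_not hf.toFinset
    (fun ρ => ρ.im ≤ 2)]
  refine add_le_add ?_ (h _ fun ρ hρ => ?_)
  · refine Finset.sum_le_sum_of_subset_of_nonneg ?_ fun _ _ _ => Nat.cast_nonneg _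
    intro ρ hρ
    rw [Finset.mem_filter, Set.Finite.mem_toFinset] at hρ
    rw [Set.Finite.mem_toFinset]
    obtain ⟨a1, a2, a3, _⟩ := hA hρ.1
    exact ⟨a1, a2, a3, hρ.2⟩
  · rw [Finset.mem_filter, Set.Finite.mem_toFinset] at hρ
    exact ⟨hρ.1, (not_le.1 hρ.2).le⟩

/-- the number of the zeros of height at most 2 -/
theorem count_two {σ : ℝ} (hσ : 0 ≤ σ) : (count (zeros σ 2) : ℝ) ≤ count (zeros 0 2) := by
  classical
  rw [count_eq (zeros_finite σ 2), count_eq (zeros_finite 0 2)]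
  refine Finset.sum_le_sum_of_subset_of_nonneg ?_ fun _ _ _ => Nat.cast_nonneg _
  intro ρ hρ
  rw [Set.Finite.mem_toFinset] at hρ ⊢
  exact ⟨hρ.1, hσ.trans hρ.2.1, hρ.2.2⟩

theorem result :
    (∀ k : ℕ, 1 ≤ k → (k = 2 ∨ Moment k) → ∀ e : ℝ, 0 < e →
      -- (1) exponential moments of the energy
      (∀ A : ℝ, 1 / 2 < A → ∃ T₀ : ℝ, ∀ T : ℝ, T₀ ≤ T → ∀ H : ℝ,
        ∫⁻ t in Icc 1 T, ENNReal.ofReal (Real.exp (k * Energy A H t)) ≤ ENNReal.ofReal (T ^ (1 + e))) ∧
      -- (2) the number of the zeros at heights of large energy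
      (∀ A H : ℝ, 1 / 2 < A → ∃ C T₀ : ℝ, ∀ T : ℝ, T₀ ≤ T → ∀ w : ℝ,
        (count {ρ : ℂ | ρ ∈ zeros 0 T ∧ 0 < ρ.re ∧ w * Real.log T ≤ Energy A H ρ.im} : ℝ) ≤
          C + T ^ (1 - k * w + e)) ∧
      -- (3) the number of the zeros with many zeros in their discs
      (∀ δ : ℝ, 0 < δ → δ < 1 / 2 → ∃ C T₀ : ℝ, ∀ T : ℝ, T₀ ≤ T → ∀ σ c : ℝ,
        1 / 2 + δ < σ → σ ≤ 1 → 0 ≤ c →
        (count {ρ : ℂ | ρ ∈ zeros σ T ∧ c * Real.log T ≤ count (near δ ρ)} : ℝ) ≤
          C + T ^ (1 - 2 * k * c * Real.log ((σ - δ) / (1 - σ + δ)) + e))) ∧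
    -- (4) the density hypothesis for the zeros in dense clusters
    (∀ ε δ : ℝ, 0 < ε → 0 < δ → δ < 1 / 2 → ∃ C T₀ : ℝ, ∀ T : ℝ, T₀ ≤ T → ∀ σ : ℝ,
      1 / 2 + δ < σ → σ ≤ 1 →
      (count {ρ : ℂ | ρ ∈ zeros σ T ∧
          (2 * σ - 1) / (4 * Real.log ((σ - δ) / (1 - σ + δ))) * Real.log T ≤ count (near δ ρ)} : ℝ) ≤
        C * T ^ (2 * (1 - σ) + ε)) ∧
    -- (5) the largest possible number of zeros in a disc
    (∀ κ : ℝ, 0 ≤ κ → κ < 1 → (κ = 1 / 6 ∨ Growth κ) → ∀ δ e : ℝ, 0 < δ → 0 < e →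
      ∃ t₀ : ℝ, ∀ ρ : ℂ, riemannZeta ρ = 0 → 1 / 2 + δ < ρ.re → t₀ ≤ ρ.im →
        (count (near δ ρ) : ℝ) * Real.log ((ρ.re - δ) / (1 - ρ.re + δ)) ≤ (κ + e) * Real.log ρ.im) := by
  refine ⟨?_, ?_, ?_⟩
  · intro k hk hm e he
    refine ⟨?_, ?_, ?_⟩
    · intro A hA
      obtain ⟨T0, _, h⟩ := exp_energy A hA k hk (hyp_of hm) e he
      exact ⟨T0, h⟩
    · intro A H hA
      obtain ⟨T0, _, h⟩ := energy_zeros A hA H k hk (hyp_of hm) e he
      refine ⟨count (zeros 0 2), T0, fun T hT w => ?_⟩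
      refine count_le (T := T) (fun ρ hρ => hρ.1) fun S hS => h T hT w S fun ρ hρ => ?_
      obtain ⟨⟨⟨a1, _, _, a4⟩, a5, a6⟩, a7⟩ := hS ρ hρ
      exact ⟨a1, a5, a7, a4, a6⟩
    · intro δ hδ hδ1
      obtain ⟨T0, _, h⟩ := clusters k hk (hyp_of hm) δ hδ hδ1 e he
      refine ⟨count (zeros 0 2), T0, fun T hT σ c hσ hσ1 hc => ?_⟩
      refine (count_le (T := T) (fun ρ hρ => hρ.1) fun S hS => h T hT σ c hσ hσ1 hc S fun ρ hρ => ?_).trans
        (add_le_add_left (count_two (by linarith)) _)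
      obtain ⟨⟨⟨a1, a2, _, a4⟩, a5⟩, a6⟩ := hS ρ hρ
      exact ⟨a1, a2, a6, a4, a5⟩
  · intro ε δ hε hδ hδ1
    obtain ⟨T0, hT0, h⟩ := clusters 2 (by norm_num) Pool.Agent.Y757.EM.hyp2 δ hδ hδ1 ε hε
    refine ⟨count (zeros 0 2) + 1, T0, fun T hT σ hσ hσ1 => ?_⟩
    have hT1 : 1 ≤ T := hT0.trans hT
    set L : ℝ := Real.log ((σ - δ) / (1 - σ + δ)) with hL
    have hL0 : 0 < L := by
      apply Real.log_pos
      rw [one_lt_div (by linarith)]
      linarith
    have hc : 0 ≤ (2 * σ - 1) / (4 * L) := div_nonneg (by linarith) (by positivity)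
    have h1 := count_le (σ := σ) (T := T)
      (A := {ρ : ℂ | ρ ∈ zeros σ T ∧ (2 * σ - 1) / (4 * L) * Real.log T ≤ count (near δ ρ)})
      (X := T ^ (1 - 2 * (2 : ℕ) * ((2 * σ - 1) / (4 * L)) * L + ε))
      (fun ρ hρ => hρ.1) fun S hS => h T hT σ _ hσ hσ1 hc S fun ρ hρ => by
        obtain ⟨⟨⟨a1, a2, _, a4⟩, a5⟩, a6⟩ := hS ρ hρ
        exact ⟨a1, a2, a6, a4, a5⟩
    have e1 : 1 - 2 * (2 : ℕ) * ((2 * σ - 1) / (4 * L)) * L + ε = 2 * (1 - σ) + ε := by
      push_cast
      field_simp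
      ring
    rw [e1] at h1
    have h2 : 1 ≤ T ^ (2 * (1 - σ) + ε) := Real.one_le_rpow hT1 (by linarith)
    have h3 := count_two (σ := σ) (by linarith)
    have h4 : (0:ℝ) ≤ count (zeros 0 2) := Nat.cast_nonneg _
    nlinarith
  · intro κ h0 h1 hG δ e hδ he
    have hG' : Growth κ := by
      rcases hG with rfl | h
      · exact Pool.Agent.Y757.HW.growth_sixth
      · exact h
    obtain ⟨t0, _, h⟩ := near_max κ h0 h1 hG' δ hδ e he
    exact ⟨t0, h⟩

end Pool.Agent.Results.MP_4467b5_nt.DenseClusters
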