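import Pool.Agent.Helper32K9.RD.Det
import Pool.Agent.Helper32K9.RD.Asm
import Pool.Agent.Helper32K9.RD.Exc
import Pool.Agent.Helper32K9.RD.Cau
import Pool.Agent.Helper32K9.RD.Head
import Pool.Agent.Helper32K9.RD.Mom
import Pool.Agent.Helper32K9.RD.Clii
import Pool.Agent.Helper61K9.RD.Lv
import Pool.Agent.Helper61K9.RD.Blk
import Pool.Agent.Helper61K9.RD.Cli
import Pool.Agent.Helper32K9.RD.Uni
import Pool.Agent.Helper32K9.RD.Qh
import Pool.Agent.Helper32K9.RD.Rich

/-!
# MP_4467b5_nt: zeros of zeta in unions of intervals of length `H ≥ √T`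

Let `√T ≤ H`. The zeros of zeta with real part at least `σ` and height in a union of `J` intervals of
length `H` in `(0, T]` number at most `T^ε (T^(2(1-σ)) + J Q)`, `Q = Q T H σ` given below (part (1)); so
the density hypothesis holds for the zeros in every union of at most `T^(2(1-σ)) / Q` intervals of
length `H`. Example: the zeros with real part at least `3/4` in every union of `T^(1/6)` intervals of
length `T^(2/3)` number at most `T^(1/2 + ε)`.

For `3/4 ≤ σ ≤ 1` and `H ≤ T^(2/3)`, `Q ≤ 3 H^(2(1-σ))` (part (2)). So the density hypothesis for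
short intervals, at most `T^ε H^(2(1-σ))` zeros in an interval of length `H`, holds with at most
`(T/H)^(2(1-σ))` exceptions among the intervals `[kH, (k+1)H)` (part (3)).

The density hypothesis holds for the zeros which have at least `T^ε Q` neighbours within the distance
`H` (part (4)), for all `1/2 ≤ σ ≤ 1`: if it fails, it fails because of zeros which are scattered at
the scales `H ≥ √T`.

Proof. A zero `β + iγ` is detected by the Taylor expansion of `M(s) ζ(s)`, `M` a short mollifier,
around the far away centre `1 + D + it`, `t` close to `γ`, with about `(D/2) log T` terms. Either the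
mean of `|M ζ|` over the circle with this centre which comes close to the critical line is large for
all `t` in an interval of length about `1 / log T` above `γ`, which happens for few zeros by the fourth
moment of zeta, or a Dirichlet polynomial of length `T^(1/2 + κ)` is large at `t`. Suitable powers of
its dyadic pieces have lengths between `T^(2/3)` and `T^(1 + κ)`, and the mean value theorem for
clustered sets of points (`Pool.Agent.W170.MV`) gives the bound.

The density hypothesis for the isolated zeros, for full windows (bounded length) and for dense clusters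
in discs (bounded radius) is in the files `IsolatedZeros`, `FullWindows`, `DenseClusters`; parts of the
proof of the present result (mollifier, dyadic pieces, windows) are taken from the first of them.
Parts are due to helpers 61, 67, 73, 74, 87.
-/

set_option autoImplicit false

namespace Pool.Agent.Results.MP_4467b5_nt.ZerosInIntervals

open Pool.Agent.Helper32K9.RD

/-- zeros of zeta with real part at least `σ` and ordinate in `(0, T]` -/
def zeros (σ T : ℝ) : Set ℂ := {s : ℂ | riemannZeta s = 0 ∧ σ ≤ s.re ∧ 0 < s.im ∧ s.im ≤ T}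

/-- the number of the elements of a set `A` of zeros of zeta, counted with multiplicity -/
noncomputable def count (A : Set ℂ) : ℕ := ∑ᶠ s ∈ A, analyticOrderNatAt riemannZeta s

/-- the quantity which multiplies the number of the intervals -/
noncomputable def Q (T H σ : ℝ) : ℝ :=
  T ^ (2 / 3 * (1 - 2 * σ)) * H + (T ^ (1 - 4 * σ / 3) + T ^ (3 / 2 - 2 * σ)) * Real.sqrt H

/-- the sets of zeros that are counted are finite -/
theorem zeros_finite (σ T : ℝ) : (zeros σ T).Finite := DH31.zeros_finite σ T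

theorem result :
    -- (1) the zeros in a union of intervals
    (∀ ε : ℝ, 0 < ε → ∃ C T₀ : ℝ, ∀ T : ℝ, T₀ ≤ T → ∀ σ : ℝ, 1 / 2 ≤ σ → σ ≤ 1 →
      ∀ H : ℝ, Real.sqrt T ≤ H → ∀ A : Finset ℝ,
        (count {ρ : ℂ | ρ ∈ zeros σ T ∧ ∃ u ∈ A, u ≤ ρ.im ∧ ρ.im ≤ u + H} : ℝ) ≤
          C * T ^ ε * (T ^ (2 * (1 - σ)) + A.card * Q T H σ)) ∧
    -- (2) a bound for `Q`
    (∀ T H σ : ℝ, 1 ≤ T → Real.sqrt T ≤ H → H ≤ T ^ (2 / 3 : ℝ) → 3 / 4 ≤ σ → σ ≤ 1 →
      Q T H σ ≤ 3 * H ^ (2 * (1 - σ))) ∧
    -- (3) the short intervals with many zeros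
    (∀ ε : ℝ, 0 < ε → ∃ T₀ : ℝ, ∀ T : ℝ, T₀ ≤ T → ∀ σ : ℝ, 3 / 4 ≤ σ → σ ≤ 1 →
      ∀ H : ℝ, Real.sqrt T ≤ H → H ≤ T ^ (2 / 3 : ℝ) → ∀ J : Finset ℕ,
        (∀ k ∈ J, T ^ ε * H ^ (2 * (1 - σ)) ≤
          (count {ρ : ℂ | ρ ∈ zeros σ T ∧ k * H ≤ ρ.im ∧ ρ.im < (k + 1) * H} : ℝ)) →
        (J.card : ℝ) ≤ (T / H) ^ (2 * (1 - σ))) ∧
    -- (4) the density hypothesis for the zeros with many neighbours
    (∀ ε : ℝ, 0 < ε → ∃ C T₀ : ℝ, ∀ T : ℝ, T₀ ≤ T → ∀ σ : ℝ, 1 / 2 ≤ σ → σ ≤ 1 →
      ∀ H : ℝ, Real.sqrt T ≤ H →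
        (count {ρ : ℂ | ρ ∈ zeros σ T ∧ T ^ ε * Q T H σ ≤
          (count {s : ℂ | s ∈ zeros σ T ∧ |s.im - ρ.im| ≤ H} : ℝ)} : ℝ) ≤
          C * T ^ (2 * (1 - σ) + ε)) := by
  have hdet : S_DET := det cau head
  have hclii : S_CLII := clii mom
  have hcli : S_CLI := cli (blk lv)
  have hasm : S_ASM := asm hdet hcli hclii
  have huni : S_UNI := uni hasm
  refine ⟨?_, qh, exc hasm qh, ?_⟩
  · intro ε hε
    obtain ⟨C, T₀, -, h⟩ := huni ε hε
    exact ⟨C, T₀, h⟩
  · intro ε hε
    obtain ⟨C, T₀, -, h⟩ := rich hasm ε hε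
    exact ⟨C, T₀, h⟩

end Pool.Agent.Results.MP_4467b5_nt.ZerosInIntervals
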